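import Mathlib

/-! # Terms in the signature `{+, ·}`, ai-semirings, and the Brandt monoid `B₂¹` -/

namespace Pool.Agent.Helper73K9.Infb

/-- Terms in the signature `{+, ·}` (no constants) over the variables `0, 1, 2, …`. -/
inductive Term : Type
  | var : ℕ → Term
  | add : Term → Term → Term
  | mul : Term → Term → Term

/-- The value of a term in an algebra `A` with two binary operations `+` and `·`. -/
def Term.eval {A : Type} [Add A] [Mul A] (f : ℕ → A) : Term → A
  | .var n => f n
  | .add s t => s.eval f + t.eval f
  | .mul s t => s.eval f * t.eval f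

/-- All variables of the term have index less than `N`. -/
def Term.VarsLt (N : ℕ) : Term → Prop
  | .var n => n < N
  | .add s t => s.VarsLt N ∧ t.VarsLt N
  | .mul s t => s.VarsLt N ∧ t.VarsLt N

/-- The identity `s ≈ t` holds in `A`. -/
def Holds (A : Type) [Add A] [Mul A] (s t : Term) : Prop :=
  ∀ f : ℕ → A, s.eval f = t.eval f

/-- `A` satisfies all identities in the set `E`, that is, `A` lies in the variety
defined by `E`. -/
def Sat (A : Type) [Add A] [Mul A] (E : Set (Term × Term)) : Prop :=
  ∀ e ∈ E, Holds A e.1 e.2

/-- `A` is generated, under `+` and `·`, by a finite subset. -/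
def FinGen (A : Type) [Add A] [Mul A] : Prop :=
  ∃ G : Set A, G.Finite ∧ ∀ T : Set A, G ⊆ T →
    (∀ x ∈ T, ∀ y ∈ T, x + y ∈ T ∧ x * y ∈ T) → T = Set.univ

/-- The variety of all `{+, ·}`-algebras defined by `E` is locally finite: its finitely
generated members are finite. -/
def LocallyFiniteVariety (E : Set (Term × Term)) : Prop :=
  ∀ (A : Type) [Add A] [Mul A], Sat A E → FinGen A → Finite A

/-- The variety of all `{+, ·}`-algebras defined by `E` is finitely based: it is defined
by some finite set of identities. -/
def FinitelyBasedVariety (E : Set (Term × Term)) : Prop :=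
  ∃ F : Set (Term × Term), F.Finite ∧ ∀ (A : Type) [Add A] [Mul A], Sat A F ↔ Sat A E

/-- `B` is inherently nonfinitely based: no locally finite variety containing `B` is
finitely based. -/
def InherentlyNonfinitelyBased (B : Type) [Add B] [Mul B] : Prop :=
  ∀ E : Set (Term × Term), Sat B E → LocallyFiniteVariety E → ¬ FinitelyBasedVariety E

/-- The axioms of additively idempotent semirings. -/
structure IsAiSemiring (A : Type) [Add A] [Mul A] : Prop where
  add_assoc : ∀ x y z : A, (x + y) + z = x + (y + z)
  add_comm : ∀ x y : A, x + y = y + x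
  add_idem : ∀ x : A, x + x = x
  mul_assoc : ∀ x y z : A, (x * y) * z = x * (y * z)
  mul_add : ∀ x y z : A, x * (y + z) = x * y + x * z
  add_mul : ∀ x y z : A, (x + y) * z = x * z + y * z

/-- The six elements of the Brandt monoid `B₂¹`. -/
inductive B21 : Type
  | zero | one | a | b | ab | ba
  deriving DecidableEq

instance : Fintype B21 :=
  ⟨{.zero, .one, .a, .b, .ab, .ba}, by intro x; cases x <;> decide⟩

/-- Multiplication of the matrix units `a = e₁₂`, `b = e₂₁`, `ab = e₁₁`, `ba = e₂₂`, the
identity matrix `one` and the zero matrix `zero`. -/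
instance : Mul B21 := ⟨fun x y => match x, y with
  | .one, y => y
  | x, .one => x
  | .a, .b => .ab
  | .a, .ba => .a
  | .b, .a => .ba
  | .b, .ab => .b
  | .ab, .a => .a
  | .ab, .ab => .ab
  | .ba, .b => .b
  | .ba, .ba => .ba
  | _, _ => .zero⟩

/-- Addition: the meet in the natural order, `ab + 1 = ab`, `ba + 1 = ba`, `x + x = x`,
and `x + y = 0` for all other pairs. -/
instance : Add B21 := ⟨fun x y => match x, y with
  | .one, .ab => .ab
  | .ab, .one => .ab
  | .one, .ba => .ba
  | .ba, .one => .ba
  | x, y => if x = y then x else .zero⟩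

theorem isAiSemiring_B21 : IsAiSemiring B21 where
  add_assoc := by decide
  add_comm := by decide
  add_idem := by decide
  mul_assoc := by decide
  mul_add := by decide
  add_mul := by decide

end Pool.Agent.Helper73K9.Infb
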