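import Mathlib

/-! # The self-describing word -/

namespace Pool.Agent.Helper73K9.Infb

/-- The letters of the word. -/
abbrev L := ℕ × ℕ × ℕ

/-- Coordinate `j` of the letter at position `s`. -/
def X (Q : ℕ) (j s : ℕ) : ℕ :=
  if j = 0 then s % Q else if s = 0 ∨ Q < 2 then 0 else
    if j = 1 then X Q ((s % Q) % 3) (s / Q - 1) else X Q ((s % Q) % 3) (s / Q)
termination_by s
decreasing_by
  · have h : s / Q < s := Nat.div_lt_self (by omega) (by omega)
    omega
  · exact Nat.div_lt_self (by omega) (by omega)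

theorem X_zero (Q s : ℕ) : X Q 0 s = s % Q := by
  rw [X]; simp

theorem X_pos_zero (Q j : ℕ) : X Q j 0 = 0 := by
  rw [X]; split_ifs <;> simp_all

theorem X_one {Q : ℕ} (hQ : 2 ≤ Q) (s : ℕ) : X Q 1 s = X Q ((s % Q) % 3) (s / Q - 1) := by
  rcases Nat.eq_zero_or_pos s with h | h
  · subst h
    simp [X_pos_zero]
  · rw [X, if_neg (by omega), if_neg (by omega), if_pos rfl]

theorem X_two {Q : ℕ} (hQ : 2 ≤ Q) (s : ℕ) : X Q 2 s = X Q ((s % Q) % 3) (s / Q) := by
  rcases Nat.eq_zero_or_pos s with h | h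
  · subst h
    simp [X_pos_zero]
  · rw [X, if_neg (by omega), if_neg (by omega), if_neg (by omega)]

theorem X_lt {Q : ℕ} (hQ : 2 ≤ Q) (s : ℕ) : ∀ j, X Q j s < Q := by
  induction s using Nat.strong_induction_on with
  | _ s ih =>
    intro j
    rw [X]
    split_ifs with h1 h2 h3
    · exact Nat.mod_lt _ (by omega)
    · omega
    · have h : s / Q < s := Nat.div_lt_self (by omega) (by omega)
      exact ih _ (by omega) _
    · exact ih _ (Nat.div_lt_self (by omega) (by omega)) _

/-- The letter at position `s`. -/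
def U (Q s : ℕ) : L := (s % Q, X Q 1 s, X Q 2 s)

@[simp] theorem U_fst (Q s : ℕ) : (U Q s).1 = s % Q := rfl
@[simp] theorem U_snd (Q s : ℕ) : (U Q s).2.1 = X Q 1 s := rfl
@[simp] theorem U_thd (Q s : ℕ) : (U Q s).2.2 = X Q 2 s := rfl

/-- The factor of the word between the positions `a` and `b`. -/
def seg (Q a b : ℕ) : List L := (List.Ico a b).map (U Q)

@[simp] theorem seg_self (Q a : ℕ) : seg Q a a = [] := by simp [seg]

@[simp] theorem seg_length (Q a b : ℕ) : (seg Q a b).length = b - a := by simp [seg]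

theorem seg_append (Q : ℕ) {a b c : ℕ} (h1 : a ≤ b) (h2 : b ≤ c) :
    seg Q a b ++ seg Q b c = seg Q a c := by
  simp only [seg, ← List.map_append, List.Ico.append_consecutive h1 h2]

theorem seg_cons (Q : ℕ) {a b : ℕ} (h : a < b) : seg Q a b = U Q a :: seg Q (a + 1) b := by
  simp only [seg, List.Ico.eq_cons h, List.map_cons]

theorem seg_succ (Q : ℕ) {a b : ℕ} (h : a ≤ b) : seg Q a (b + 1) = seg Q a b ++ [U Q b] := by
  rw [← seg_append Q h (Nat.le_succ b), seg_cons Q (Nat.lt_succ_self b), seg_self]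

theorem seg_eq_nil (Q : ℕ) {a b : ℕ} (h : seg Q a b = []) : b ≤ a := by
  have := congrArg List.length h
  simp at this
  omega

/-- The three coordinates of the letters of a word, written one after the other. -/
def flat (l : List L) : List ℕ := l.flatMap fun x => [x.1, x.2.1, x.2.2]

@[simp] theorem flat_nil : flat [] = [] := rfl

@[simp] theorem flat_cons (x : L) (l : List L) :
    flat (x :: l) = x.1 :: x.2.1 :: x.2.2 :: flat l := rfl

theorem flat_append (l m : List L) : flat (l ++ m) = flat l ++ flat m := by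
  simp [flat, List.flatMap_append]

theorem flat_length (l : List L) : (flat l).length = 3 * l.length := by
  induction l with
  | nil => rfl
  | cons x l ih => simp only [flat_cons, List.length_cons, ih]; ring

theorem flat_inj : ∀ {l m : List L}, flat l = flat m → l = m
  | [], [], _ => rfl
  | [], _ :: _, h => by simp at h
  | _ :: _, [], h => by simp at h
  | (x, y, z) :: l, (x', y', z') :: m, h => by
      simp only [flat_cons, List.cons.injEq] at h
      obtain ⟨h1, h2, h3, h4⟩ := h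
      rw [flat_inj h4, h1, h2, h3]

/-- The entries read in the window `ρ, ρ+1, ρ+2` of each block. -/
def D (ρ : ℕ) (l : List L) : List ℕ :=
  l.flatMap fun x => if ρ ≤ x.1 ∧ x.1 < ρ + 3 then [x.2.2] else []

@[simp] theorem D_nil (ρ : ℕ) : D ρ [] = [] := rfl

theorem D_cons (ρ : ℕ) (x : L) (l : List L) :
    D ρ (x :: l) = (if ρ ≤ x.1 ∧ x.1 < ρ + 3 then [x.2.2] else []) ++ D ρ l := rfl

theorem D_append (ρ : ℕ) (l m : List L) : D ρ (l ++ m) = D ρ l ++ D ρ m := by
  simp [D, List.flatMap_append]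

theorem D_length_le (ρ : ℕ) (l : List L) : (D ρ l).length ≤ l.length := by
  induction l with
  | nil => simp
  | cons x l ih =>
    rw [D_cons, List.length_append, List.length_cons]
    split_ifs <;> simp <;> omega

theorem div_mod_succ {Q b : ℕ} (hQ : 0 < Q) :
    (b % Q + 1 < Q ∧ (b + 1) / Q = b / Q ∧ (b + 1) % Q = b % Q + 1) ∨
    (b % Q + 1 = Q ∧ (b + 1) / Q = b / Q + 1 ∧ (b + 1) % Q = 0) := by
  have h1 := Nat.div_add_mod b Q
  have h2 := Nat.mod_lt b hQ
  rcases Nat.lt_or_ge (b % Q + 1) Q with h | h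
  · left
    refine ⟨h, ?_, ?_⟩
    · have : b + 1 = (b % Q + 1) + Q * (b / Q) := by omega
      rw [this, Nat.add_mul_div_left _ _ hQ, Nat.div_eq_of_lt h, zero_add]
    · have : (b + 1) = (b % Q + 1) + Q * (b / Q) := by omega
      rw [this, Nat.add_mul_mod_self_left, Nat.mod_eq_of_lt h]
  · right
    have h3 : b % Q + 1 = Q := by omega
    have : b + 1 = Q * (b / Q + 1) := by rw [mul_add]; omega
    refine ⟨h3, ?_, ?_⟩
    · rw [this, Nat.mul_div_cancel_left _ hQ]
    · rw [this, Nat.mul_mod_right]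

/-- What is read up to position `b`. -/
theorem D_seg_zero {Q ρ : ℕ} (hQ : 2 ≤ Q) (hρ : ρ % 3 = 0) (hρQ : ρ + 3 ≤ Q) (b : ℕ) :
    D ρ (seg Q 0 b) = flat (seg Q 0 (b / Q)) ++
      ([X Q 0 (b / Q), X Q 1 (b / Q), X Q 2 (b / Q)].take (b % Q - ρ)) := by
  induction b with
  | zero => simp
  | succ b ih =>
    rw [seg_succ Q (Nat.zero_le b), D_append, ih, D_cons, D_nil, List.append_nil, U_fst, U_thd,
      X_two hQ b]
    have hlt : b % Q < Q := Nat.mod_lt _ (by omega)
    -- the value read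
    have key : ([X Q 0 (b / Q), X Q 1 (b / Q), X Q 2 (b / Q)].take (b % Q - ρ)) ++
        (if ρ ≤ b % Q ∧ b % Q < ρ + 3 then [X Q (b % Q % 3) (b / Q)] else []) =
        ([X Q 0 (b / Q), X Q 1 (b / Q), X Q 2 (b / Q)].take (b % Q + 1 - ρ)) := by
      rcases Nat.lt_or_ge (b % Q) ρ with h | h
      · rw [if_neg (by omega), show b % Q - ρ = 0 by omega, show b % Q + 1 - ρ = 0 by omega]
        simp
      · rcases Nat.lt_or_ge (b % Q) (ρ + 3) with h' | h'
        · rw [if_pos ⟨h, h'⟩]
          have h3 : b % Q = ρ ∨ b % Q = ρ + 1 ∨ b % Q = ρ + 2 := by omega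
          rcases h3 with h3 | h3 | h3
          · rw [h3, show ρ - ρ = 0 by omega, show ρ + 1 - ρ = 1 by omega, show ρ % 3 = 0 from hρ]
            simp
          · rw [h3, show ρ + 1 - ρ = 1 by omega, show ρ + 1 + 1 - ρ = 2 by omega,
              show (ρ + 1) % 3 = 1 by omega]
            simp
          · rw [h3, show ρ + 2 - ρ = 2 by omega, show ρ + 2 + 1 - ρ = 3 by omega,
              show (ρ + 2) % 3 = 2 by omega]
            simp
        · rw [if_neg (by omega)]
          rw [List.take_of_length_le (by simp; omega), List.take_of_length_le (by simp; omega)]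
          simp
    rw [List.append_assoc, key]
    rcases div_mod_succ (b := b) (Q := Q) (by omega) with ⟨h1, h2, h3⟩ | ⟨h1, h2, h3⟩
    · rw [h2, h3]
    · rw [h2, h3, List.take_of_length_le (by simp; omega), seg_succ Q (Nat.zero_le _), flat_append]
      simp [U, X_zero]

/-- The number of windows completed before `s`, for `s` not inside a window. -/
def yy (Q ρ s : ℕ) : ℕ := if s % Q ≤ ρ then s / Q else s / Q + 1

theorem D_seg_yy {Q ρ : ℕ} (hQ : 2 ≤ Q) (hρ : ρ % 3 = 0) (hρQ : ρ + 3 ≤ Q) {b : ℕ}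
    (hb : b % Q ≤ ρ ∨ ρ + 3 ≤ b % Q) :
    D ρ (seg Q 0 b) = flat (seg Q 0 (yy Q ρ b)) := by
  rw [D_seg_zero hQ hρ hρQ]
  rcases hb with hb | hb
  · rw [show b % Q - ρ = 0 by omega, yy, if_pos hb]
    simp
  · rw [yy, if_neg (by omega), List.take_of_length_le (by simp; omega), seg_succ Q (Nat.zero_le _),
      flat_append]
    simp [U, X_zero]

theorem yy_mono {Q ρ a b : ℕ} (hab : a ≤ b) : yy Q ρ a ≤ yy Q ρ b := by
  have h := Nat.div_le_div_right (c := Q) hab
  rcases Nat.eq_or_lt_of_le h with h | h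
  · have h1 := Nat.div_add_mod a Q
    have h2 := Nat.div_add_mod b Q
    rw [h] at h1
    unfold yy
    split_ifs <;> omega
  · unfold yy
    split_ifs <;> omega

theorem D_seg {Q ρ : ℕ} (hQ : 2 ≤ Q) (hρ : ρ % 3 = 0) (hρQ : ρ + 3 ≤ Q) {a b : ℕ} (hab : a ≤ b)
    (ha : a % Q ≤ ρ ∨ ρ + 3 ≤ a % Q) (hb : b % Q ≤ ρ ∨ ρ + 3 ≤ b % Q) :
    D ρ (seg Q a b) = flat (seg Q (yy Q ρ a) (yy Q ρ b)) := by
  have h1 := D_seg_yy hQ hρ hρQ hb
  rw [← seg_append Q (Nat.zero_le a) hab, D_append, D_seg_yy hQ hρ hρQ ha,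
    ← seg_append Q (Nat.zero_le _) (yy_mono hab), flat_append] at h1
  exact List.append_cancel_left h1

/-- The number of entries read up to `b`. -/
theorem D_seg_zero_length {Q ρ : ℕ} (hQ : 2 ≤ Q) (hρ : ρ % 3 = 0) (hρQ : ρ + 3 ≤ Q) (b : ℕ) :
    (D ρ (seg Q 0 b)).length = 3 * (b / Q) + min (b % Q - ρ) 3 := by
  rw [D_seg_zero hQ hρ hρQ, List.length_append, flat_length, seg_length, List.length_take]
  simp

end Pool.Agent.Helper73K9.Infb
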