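import Pool.Agent.Helper73K9.Infb.Defs
import Pool.Agent.Helper73K9.Infb.Word

/-! # Rigidity of the word with respect to the assignments in `B₂¹` -/

namespace Pool.Agent.Helper73K9.Infb

/-- Entry `(i, j)` of the matrix of an element of `B₂¹`. -/
def rel : B21 → Bool → Bool → Bool
  | .zero, _, _ => false
  | .one, i, j => i == j
  | .a, i, j => !i && j
  | .b, i, j => i && !j
  | .ab, i, j => !i && !j
  | .ba, i, j => i && j

theorem rel_mul : ∀ (x y : B21) (i j : Bool),
    (rel (x * y) i j = true ↔ ∃ k, rel x i k = true ∧ rel y k j = true) := by decide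

theorem rel_add : ∀ (x y : B21) (i j : Bool),
    (rel (x + y) i j = true ↔ rel x i j = true ∧ rel y i j = true) := by decide

theorem rel_left : ∀ (x : B21) (i k k' : Bool), rel x i k = true → rel x i k' = true → k = k' := by
  decide

theorem rel_right : ∀ (x : B21) (k k' j : Bool), rel x k j = true → rel x k' j = true → k = k' := by
  decide

/-- The product of a list. -/
def prodB : List B21 → B21
  | [] => .one
  | x :: l => x * prodB l

@[simp] theorem prodB_nil : prodB [] = B21.one := rfl
@[simp] theorem prodB_cons (x : B21) (l : List B21) : prodB (x :: l) = x * prodB l := rfl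

theorem one_mul' : ∀ x : B21, B21.one * x = x := by decide
theorem mul_one' : ∀ x : B21, x * B21.one = x := by decide

theorem prodB_append (l m : List B21) : prodB (l ++ m) = prodB l * prodB m := by
  induction l with
  | nil => simp [one_mul']
  | cons x l ih => rw [List.cons_append, prodB_cons, prodB_cons, ih, isAiSemiring_B21.mul_assoc]

/-- The matrix unit. -/
def un : Bool → Bool → B21
  | false, false => .ab
  | false, true => .a
  | true, false => .b
  | true, true => .ba

theorem rel_un_mul : ∀ (i j k l : Bool) (x : B21),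
    (rel (un i j * x) k l = true ↔ k = i ∧ rel x j l = true) := by decide

theorem rel_one : ∀ i j : Bool, (rel .one i j = true ↔ i = j) := by decide

/-- Walks: the letters in `kn` prescribe the states before and after them, the others do
not change the state. -/
def Path {T : Type} (kn : L → Prop) (sL sR : L → T) : T → List L → T → Prop
  | a, [], b => a = b
  | a, x :: g, b => (kn x → a = sL x ∧ Path kn sL sR (sR x) g b) ∧ (¬ kn x → Path kn sL sR a g b)

theorem path_rel {T : Type} (kn : L → Prop) [DecidablePred kn] (sL sR : L → T) (h : T → Bool)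
    (f : List L) : ∀ a b : T, Path kn sL sR a f b →
      rel (prodB (f.map fun x => if kn x then un (h (sL x)) (h (sR x)) else .one)) (h a) (h b)
        = true := by
  induction f with
  | nil =>
    intro a b hp
    have hp' : a = b := hp
    rw [List.map_nil, prodB_nil, rel_one, hp']
  | cons x f ih =>
    intro a b hp
    obtain ⟨h1, h2⟩ := hp
    rw [List.map_cons, prodB_cons]
    by_cases hk : kn x
    · rw [if_pos hk, rel_un_mul]
      obtain ⟨h3, h4⟩ := h1 hk
      exact ⟨by rw [h3], ih _ _ h4⟩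
    · rw [if_neg hk, one_mul']
      exact ih _ _ (h2 hk)

theorem rel_path {T : Type} (kn : L → Prop) [DecidablePred kn] (sL sR : L → T)
    (g : List L) : ∀ a b : T, (∀ h : T → Bool,
      rel (prodB (g.map fun x => if kn x then un (h (sL x)) (h (sR x)) else .one)) (h a) (h b)
        = true) → Path kn sL sR a g b := by
  classical
  have sep : ∀ a b : T, (∀ h : T → Bool, h a = h b) → a = b := by
    intro a b h
    have := h (fun x => decide (x = b))
    simpa using this
  induction g with
  | nil =>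
    intro a b hp
    refine sep a b fun h => ?_
    have := hp h
    rwa [List.map_nil, prodB_nil, rel_one] at this
  | cons x g ih =>
    intro a b hp
    constructor
    · intro hk
      have h1 : ∀ h : T → Bool, h a = h (sL x) ∧
          rel (prodB (g.map fun x => if kn x then un (h (sL x)) (h (sR x)) else .one))
            (h (sR x)) (h b) = true := by
        intro h
        have := hp h
        rw [List.map_cons, prodB_cons, if_pos hk, rel_un_mul] at this
        exact this
      exact ⟨sep _ _ fun h => (h1 h).1, ih _ _ fun h => (h1 h).2⟩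
    · intro hk
      refine ih _ _ fun h => ?_
      have := hp h
      rwa [List.map_cons, prodB_cons, if_neg hk, one_mul'] at this

/-- Everything that is true of `f` in all assignments is true of `g`. -/
def Below (f g : List L) : Prop :=
  ∀ (γ : L → B21) (i j : Bool), rel (prodB (f.map γ)) i j = true →
    rel (prodB (g.map γ)) i j = true

theorem Below.path {f g : List L} (H : Below f g) {T : Type} (kn : L → Prop) (sL sR : L → T)
    {a b : T} (hp : Path kn sL sR a f b) : Path kn sL sR a g b := by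
  classical
  exact rel_path kn sL sR g a b fun h => H _ _ _ (path_rel kn sL sR h f a b hp)

theorem path_seg {Q : ℕ} {T : Type} (kn : L → Prop) (sL sR : L → T) (S : ℕ → T)
    (h1 : ∀ s, kn (U Q s) → S s = sL (U Q s) ∧ S (s + 1) = sR (U Q s))
    (h2 : ∀ s, ¬ kn (U Q s) → S s = S (s + 1)) :
    ∀ (k p : ℕ), Path kn sL sR (S p) (seg Q p (p + k)) (S (p + k)) := by
  intro k
  induction k with
  | zero => intro p; rw [Nat.add_zero, seg_self]; rfl
  | succ k ih =>
    intro p
    rw [seg_cons Q (by omega), show p + (k + 1) = (p + 1) + k by ring]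
    constructor
    · intro hk
      refine ⟨(h1 p hk).1, ?_⟩
      rw [← (h1 p hk).2]
      exact ih (p + 1)
    · intro hk
      rw [h2 p hk]
      exact ih (p + 1)

/-- The walk of the residues. -/
abbrev Path0 (Q : ℕ) : ℕ → List L → ℕ → Prop :=
  Path (fun _ => True) (fun x => x.1) (fun x => (x.1 + 1) % Q)

/-- The walk for the threshold `t`. -/
abbrev PathT (t : ℕ) : ℕ → List L → ℕ → Prop :=
  Path (fun x => x.1 % 3 = t % 3) (fun x => if x.1 ≤ t then x.2.1 else x.2.2)
    (fun x => if x.1 < t then x.2.1 else x.2.2)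

theorem path0_cons {Q a b : ℕ} {x : L} {g : List L} (h : Path0 Q a (x :: g) b) :
    a = x.1 ∧ Path0 Q ((x.1 + 1) % Q) g b := h.1 trivial

theorem pathT_cons {t a b : ℕ} {x : L} {g : List L} (h : PathT t a (x :: g) b)
    (hk : x.1 % 3 = t % 3) : a = (if x.1 ≤ t then x.2.1 else x.2.2) ∧
      PathT t (if x.1 < t then x.2.1 else x.2.2) g b := h.1 hk

/-- The state at `s` for the threshold `t`. -/
def St (Q t s : ℕ) : ℕ := X Q (t % 3) (if s % Q ≤ t then s / Q - 1 else s / Q)

theorem St_kn {Q : ℕ} (hQ : 2 ≤ Q) {t : ℕ} (ht : t < Q) (s : ℕ) (hk : (U Q s).1 % 3 = t % 3) :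
    St Q t s = (if (U Q s).1 ≤ t then (U Q s).2.1 else (U Q s).2.2) ∧
    St Q t (s + 1) = (if (U Q s).1 < t then (U Q s).2.1 else (U Q s).2.2) := by
  have hk' : s % Q % 3 = t % 3 := hk
  simp only [U_fst, U_snd, U_thd, X_one hQ, X_two hQ, hk', St]
  constructor
  · split_ifs <;> rfl
  · rcases div_mod_succ (b := s) (Q := Q) (by omega) with ⟨h1, h2, h3⟩ | ⟨h1, h2, h3⟩
    · rw [h2, h3]
      by_cases h : s % Q < t
      · rw [if_pos (by omega), if_pos h]
      · rw [if_neg (by omega), if_neg h]
    · rw [h2, h3, if_pos (by omega), if_neg (by omega)]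
      rfl

theorem St_not_kn {Q : ℕ} (hQ : 2 ≤ Q) {t : ℕ} (ht : t < Q) (s : ℕ)
    (hk : ¬ (U Q s).1 % 3 = t % 3) : St Q t s = St Q t (s + 1) := by
  have hk' : ¬ s % Q % 3 = t % 3 := hk
  have hne : s % Q ≠ t := fun h => hk' (by rw [h])
  unfold St
  rcases div_mod_succ (b := s) (Q := Q) (by omega) with ⟨h1, h2, h3⟩ | ⟨h1, h2, h3⟩
  · rw [h2, h3]
    by_cases h : s % Q ≤ t
    · rw [if_pos h, if_pos (by omega)]
    · rw [if_neg h, if_neg (by omega)]
  · rw [h2, h3, if_neg (by omega), if_pos (by omega)]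
    rfl

theorem seg_path0 {Q : ℕ} (hQ : 2 ≤ Q) {p q : ℕ} (hpq : p ≤ q) :
    Path0 Q (p % Q) (seg Q p q) (q % Q) := by
  obtain ⟨k, rfl⟩ := Nat.exists_eq_add_of_le hpq
  refine path_seg (Q := Q) _ _ _ (fun s => s % Q) ?_ ?_ k p
  · intro s _
    refine ⟨rfl, ?_⟩
    simp only [U_fst]
    rw [Nat.add_mod s 1 Q, Nat.mod_eq_of_lt (show 1 < Q by omega)]
  · intro s h
    exact absurd trivial h

theorem seg_pathT {Q : ℕ} (hQ : 2 ≤ Q) {t : ℕ} (ht : t < Q) {p q : ℕ} (hpq : p ≤ q) :
    PathT t (St Q t p) (seg Q p q) (St Q t q) := by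
  obtain ⟨k, rfl⟩ := Nat.exists_eq_add_of_le hpq
  exact path_seg (Q := Q) _ _ _ (St Q t) (St_kn hQ ht) (St_not_kn hQ ht) k p

/-- The length is determined. -/
theorem len_aux {Q ρ : ℕ} (hQ : 2 ≤ Q) (e : ℕ) : ∀ (g : List L) (p : ℕ),
    Path0 Q (p % Q) g e →
      (p + g.length) % Q = e ∧ (D ρ g).length = (D ρ (seg Q p (p + g.length))).length := by
  intro g
  induction g with
  | nil =>
    intro p h
    have h' : p % Q = e := h
    simp [h']
  | cons x g ih =>
    intro p h
    obtain ⟨h1, h2⟩ := path0_cons h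
    have h3 : (p + 1) % Q = (x.1 + 1) % Q := by
      rw [← h1, Nat.add_mod p 1 Q, Nat.mod_eq_of_lt (show 1 < Q by omega)]
    have h4 : Path0 Q ((p + 1) % Q) g e := by rw [h3]; exact h2
    obtain ⟨h5, h6⟩ := ih (p + 1) h4
    rw [List.length_cons, show p + (g.length + 1) = (p + 1) + g.length by ring]
    refine ⟨h5, ?_⟩
    rw [seg_cons Q (by omega), D_cons, D_cons, List.length_append, List.length_append, h6, U_fst,
      ← h1]
    split_ifs <;> rfl

theorem len_eq {Q ρ : ℕ} (hQ : 2 ≤ Q) (hρ : ρ % 3 = 0) (hρQ : ρ + 3 ≤ Q) {p q : ℕ}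
    (hpq : p ≤ q) {g : List L} (h0 : Path0 Q (p % Q) g (q % Q))
    (hD : D ρ g = D ρ (seg Q p q)) : p + g.length = q := by
  obtain ⟨h1, h2⟩ := len_aux (ρ := ρ) hQ (q % Q) g p h0
  rw [hD] at h2
  have e1 := D_seg_zero_length hQ hρ hρQ q
  have e2 := D_seg_zero_length hQ hρ hρQ (p + g.length)
  rw [← seg_append Q (Nat.zero_le p) hpq, D_append, List.length_append] at e1
  rw [← seg_append Q (Nat.zero_le p) (Nat.le_add_right p g.length), D_append,
    List.length_append] at e2
  rw [h1] at e2
  have e3 : (p + g.length) / Q = q / Q := by omega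
  have e4 := Nat.div_add_mod (p + g.length) Q
  have e5 := Nat.div_add_mod q Q
  rw [h1, e3] at e4
  omega

/-- The look-ahead lemma: between the threshold `t` and the window, the state is right. -/
theorem ahead {Q ρ : ℕ} (hQ : 2 ≤ Q) (hρ : ρ % 3 = 0) (hρQ : ρ + 3 ≤ Q) (q t : ℕ) :
    ∀ (g : List L) (p a : ℕ), p + g.length = q → Path0 Q (p % Q) g (q % Q) →
      PathT t a g (St Q t q) → D ρ g = D ρ (seg Q p q) → t < p % Q → p % Q ≤ ρ + t % 3 →
      a = X Q (t % 3) (p / Q) := by
  intro g
  induction g with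
  | nil =>
    intro p a hl h0 hT hD ht hp
    have h' : a = St Q t q := hT
    have hpq : p = q := by simpa using hl
    rw [h', St, ← hpq, if_neg (by omega)]
  | cons x g ih =>
    intro p a hl h0 hT hD ht hp
    obtain ⟨h1, h2⟩ := path0_cons h0
    have hlen : p + 1 + g.length = q := by rw [← hl, List.length_cons]; ring
    have h3 : (p + 1) % Q = (x.1 + 1) % Q := by
      rw [← h1, Nat.add_mod p 1 Q, Nat.mod_eq_of_lt (show 1 < Q by omega)]
    have h4 : Path0 Q ((p + 1) % Q) g (q % Q) := by rw [h3]; exact h2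
    rw [seg_cons Q (by omega), D_cons, D_cons, U_fst, U_thd, h1] at hD
    have hD' : D ρ g = D ρ (seg Q (p + 1) q) ∧ (ρ ≤ x.1 ∧ x.1 < ρ + 3 → x.2.2 = X Q 2 p) := by
      split_ifs at hD with hc
      · simp only [List.singleton_append, List.cons.injEq] at hD
        exact ⟨hD.2, fun _ => hD.1⟩
      · simp only [List.nil_append] at hD
        exact ⟨hD, fun h => absurd h hc⟩
    have h1' : p % Q = x.1 := h1
    by_cases hk : x.1 % 3 = t % 3
    · obtain ⟨h5, h6⟩ := pathT_cons hT hk
      rw [if_neg (by omega)] at h5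
      rcases Nat.eq_or_lt_of_le hp with hpe | hplt
      · rw [h5, hD'.2 (by omega), X_two hQ, h1', hk]
      · rw [if_neg (by omega), ← h5] at h6
        rcases div_mod_succ (b := p) (Q := Q) (by omega) with ⟨h7, h8, h9⟩ | ⟨h7, h8, h9⟩
        · rw [ih (p + 1) a hlen h4 h6 hD'.1 (by omega) (by omega), h8]
        · omega
    · have h6 := hT.2 hk
      rcases div_mod_succ (b := p) (Q := Q) (by omega) with ⟨h7, h8, h9⟩ | ⟨h7, h8, h9⟩
      · rw [ih (p + 1) a hlen h4 h6 hD'.1 (by omega) (by omega), h8]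
      · omega

theorem rigid_aux {Q ρ : ℕ} (hQ : 2 ≤ Q) (hρ : ρ % 3 = 0) (hρQ : ρ + 3 ≤ Q) (q : ℕ) :
    ∀ (g : List L) (p : ℕ), p + g.length = q → Path0 Q (p % Q) g (q % Q) →
      (∀ t, t < Q → PathT t (St Q t p) g (St Q t q)) → D ρ g = D ρ (seg Q p q) →
      g = seg Q p q := by
  intro g
  induction g with
  | nil =>
    intro p hl _ _ _
    have hpq : p = q := by simpa using hl
    rw [hpq, seg_self]
  | cons x g ih =>
    intro p hl h0 hT hD
    obtain ⟨h1, h2⟩ := path0_cons h0
    have h1' : p % Q = x.1 := h1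
    have hlen : p + 1 + g.length = q := by rw [← hl, List.length_cons]; ring
    have h3 : (p + 1) % Q = (x.1 + 1) % Q := by
      rw [← h1, Nat.add_mod p 1 Q, Nat.mod_eq_of_lt (show 1 < Q by omega)]
    have h4 : Path0 Q ((p + 1) % Q) g (q % Q) := by rw [h3]; exact h2
    have hxQ : x.1 < Q := by rw [← h1']; exact Nat.mod_lt _ (by omega)
    rw [seg_cons Q (by omega), D_cons, D_cons, U_fst, U_thd, h1] at hD
    have hD' : D ρ g = D ρ (seg Q (p + 1) q) ∧ (ρ ≤ x.1 ∧ x.1 < ρ + 3 → x.2.2 = X Q 2 p) := by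
      split_ifs at hD with hc
      · simp only [List.singleton_append, List.cons.injEq] at hD
        exact ⟨hD.2, fun _ => hD.1⟩
      · simp only [List.nil_append] at hD
        exact ⟨hD, fun h => absurd h hc⟩
    -- the left entry
    have hP : x.2.1 = X Q 1 p := by
      obtain ⟨h5, _⟩ := pathT_cons (hT x.1 hxQ) rfl
      rw [if_pos le_rfl, St, h1', if_pos le_rfl] at h5
      rw [← h5, X_one hQ, h1']
    -- the right entry
    have hR : x.2.2 = X Q 2 p := by
      rcases Nat.lt_or_ge x.1 ρ with hr | hr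
      · -- before the window
        obtain ⟨_, h6⟩ := pathT_cons (hT x.1 hxQ) rfl
        rw [if_neg (lt_irrefl _)] at h6
        rcases div_mod_succ (b := p) (Q := Q) (by omega) with ⟨h7, h8, h9⟩ | ⟨h7, h8, h9⟩
        · rw [ahead hQ hρ hρQ q x.1 g (p + 1) x.2.2 hlen h4 h6 hD'.1 (by omega) (by omega), h8,
            X_two hQ, h1']
        · omega
      · rcases Nat.lt_or_ge x.1 (ρ + 3) with hr' | hr'
        · exact hD'.2 ⟨hr, hr'⟩
        · -- after the window
          have ht : ρ + x.1 % 3 < Q := by omega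
          obtain ⟨h5, _⟩ := pathT_cons (hT (ρ + x.1 % 3) ht) (by omega)
          rw [if_neg (by omega), St, h1', if_neg (by omega)] at h5
          rw [← h5, X_two hQ, h1']
          congr 1
          omega
    have hx : x = U Q p := by
      refine Prod.ext h1.symm (Prod.ext hP hR)
    rw [seg_cons Q (by omega), hx]
    congr 1
    refine ih (p + 1) hlen h4 ?_ hD'.1
    intro t ht
    by_cases hk : x.1 % 3 = t % 3
    · obtain ⟨_, h6⟩ := pathT_cons (hT t ht) hk
      have h7 := (St_kn hQ ht p (by rw [← hx]; exact hk)).2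
      rw [← hx] at h7
      rw [h7]
      exact h6
    · have h6 := (hT t ht).2 hk
      rw [← St_not_kn hQ ht p (by rw [← hx]; exact hk)]
      exact h6

/-- **Rigidity.** A word which is above a factor of the word in `B₂¹` and has the same
entries in the windows is equal to it. -/
theorem rigid {Q ρ : ℕ} (hQ : 2 ≤ Q) (hρ : ρ % 3 = 0) (hρQ : ρ + 3 ≤ Q) {p q : ℕ}
    (hpq : p ≤ q) {g : List L} (hB : Below (seg Q p q) g) (hD : D ρ g = D ρ (seg Q p q)) :
    g = seg Q p q := by
  have h0 : Path0 Q (p % Q) g (q % Q) := hB.path _ _ _ (seg_path0 hQ hpq)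
  exact rigid_aux hQ hρ hρQ q g p (len_eq hQ hρ hρQ hpq h0 hD) h0
    (fun t ht => hB.path _ _ _ (seg_pathT hQ ht hpq)) hD

end Pool.Agent.Helper73K9.Infb
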