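import Pool.Agent.Helper73K9.Infb.Star

/-! # The infinite finitely generated semiring of factors -/

namespace Pool.Agent.Helper73K9.Infb

/-- `f` is a factor of the word. -/
def Fac (Q : ℕ) (f : List L) : Prop := ∃ a b, a ≤ b ∧ f = seg Q a b

theorem Fac.left {Q : ℕ} {f g : List L} (h : Fac Q (f ++ g)) : Fac Q f := by
  obtain ⟨a, b, hab, he⟩ := h
  have hl := congrArg List.length he
  rw [List.length_append, seg_length] at hl
  refine ⟨a, a + f.length, Nat.le_add_right _ _, ?_⟩
  rw [← seg_append Q (Nat.le_add_right a f.length) (show a + f.length ≤ b by omega)] at he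
  exact (List.append_inj he (by rw [seg_length]; omega)).1

theorem Fac.right {Q : ℕ} {f g : List L} (h : Fac Q (f ++ g)) : Fac Q g := by
  obtain ⟨a, b, hab, he⟩ := h
  have hl := congrArg List.length he
  rw [List.length_append, seg_length] at hl
  refine ⟨a + f.length, b, by omega, ?_⟩
  rw [← seg_append Q (Nat.le_add_right a f.length) (show a + f.length ≤ b by omega)] at he
  exact (List.append_inj he (by rw [seg_length]; omega)).2

/-- The nonempty factors of the word together with a zero (`none`). -/
def Sg (Q : ℕ) : Type := Option {f : List L // f ≠ [] ∧ Fac Q f}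

/-- Flat addition. -/
noncomputable instance (Q : ℕ) : Add (Sg Q) :=
  ⟨fun x y => by classical exact if x = y then x else none⟩

/-- Concatenation of the factors, zero if the result is not a factor. -/
noncomputable instance (Q : ℕ) : Mul (Sg Q) :=
  ⟨fun x y => by
    classical
    exact match x, y with
      | some f, some g => if h : Fac Q (f.1 ++ g.1) then
          some ⟨f.1 ++ g.1, by simp [f.2.1], h⟩ else none
      | _, _ => none⟩

theorem Sg_add (Q : ℕ) (x y f : Sg Q) (hf : f ≠ none) : x + y = f ↔ x = f ∧ y = f := by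
  have h1 : x = y → x + y = x := fun h => if_pos h
  have h2 : x ≠ y → x + y = (show Sg Q from none) := fun h => if_neg h
  by_cases hxy : x = y
  · rw [h1 hxy]
    subst hxy
    exact ⟨fun h' => ⟨h', h'⟩, fun h' => h'.1⟩
  · constructor
    · intro h'
      exact absurd (h'.symm.trans (h2 hxy)) hf
    · rintro ⟨rfl, rfl⟩
      exact absurd rfl hxy

theorem Sg_mul (Q : ℕ) (x y : Sg Q) (f : {f : List L // f ≠ [] ∧ Fac Q f}) :
    x * y = some f ↔ ∃ g h : {f : List L // f ≠ [] ∧ Fac Q f},
      x = some g ∧ y = some h ∧ f.1 = g.1 ++ h.1 := by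
  classical
  cases x with
  | none =>
    constructor
    · intro h
      exact absurd (show (none : Option _) = some f from h) (by simp)
    · rintro ⟨g, h, hg, _⟩
      exact absurd (show (none : Option _) = some g from hg) (by simp)
  | some g =>
    cases y with
    | none =>
      constructor
      · intro h
        exact absurd (show (none : Option _) = some f from h) (by simp)
      · rintro ⟨g, h, _, hh, _⟩
        exact absurd (show (none : Option _) = some h from hh) (by simp)
    | some h =>
      by_cases hF : Fac Q (g.1 ++ h.1)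
      · have e : (show Sg Q from some g) * (show Sg Q from some h) =
            some ⟨g.1 ++ h.1, by simp [g.2.1], hF⟩ := dif_pos hF
        constructor
        · intro he
          have e2 := e.symm.trans he
          have e3 : (⟨g.1 ++ h.1, by simp [g.2.1], hF⟩ :
            {f : List L // f ≠ [] ∧ Fac Q f}) = f := Option.some.inj e2
          exact ⟨g, h, rfl, rfl, by rw [← e3]⟩
        · rintro ⟨g', h', hg, hh, he⟩
          have hg' : g = g' := Option.some.inj hg
          have hh' : h = h' := Option.some.inj hh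
          subst hg' hh'
          refine e.trans ?_
          congr 1
          exact Subtype.ext he.symm
      · have e : (show Sg Q from some g) * (show Sg Q from some h) = none := dif_neg hF
        constructor
        · intro he
          have e2 := e.symm.trans he
          exact absurd (show (none : Option _) = some f from e2) (by simp)
        · rintro ⟨g', h', hg, hh, he⟩
          have hg' : g = g' := Option.some.inj hg
          have hh' : h = h' := Option.some.inj hh
          subst hg' hh'
          exact absurd (he ▸ f.2.2) hF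

/-- The monomials of a term. -/
def words : Term → List (List ℕ)
  | .var n => [[n]]
  | .add s t => words s ++ words t
  | .mul s t => (words s).flatMap fun w => (words t).map fun v => w ++ v

theorem mem_words_add {s t : Term} {w : List ℕ} :
    w ∈ words (.add s t) ↔ w ∈ words s ∨ w ∈ words t := by
  simp [words]

theorem mem_words_mul {s t : Term} {w : List ℕ} :
    w ∈ words (.mul s t) ↔ ∃ w1 ∈ words s, ∃ w2 ∈ words t, w1 ++ w2 = w := by
  simp [words]

theorem exists_word (t : Term) : ∃ w, w ∈ words t := by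
  induction t with
  | var n => exact ⟨[n], by simp [words]⟩
  | add s t ih1 ih2 =>
    obtain ⟨w, hw⟩ := ih1
    exact ⟨w, mem_words_add.2 (Or.inl hw)⟩
  | mul s t ih1 ih2 =>
    obtain ⟨w, hw⟩ := ih1
    obtain ⟨v, hv⟩ := ih2
    exact ⟨w ++ v, mem_words_mul.2 ⟨w, hw, v, hv, rfl⟩⟩

theorem words_ne_nil (t : Term) : ∀ w ∈ words t, w ≠ [] := by
  induction t with
  | var n => intro w hw; simp [words] at hw; simp [hw]
  | add s t ih1 ih2 =>
    intro w hw
    rcases mem_words_add.1 hw with h | h
    · exact ih1 w h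
    · exact ih2 w h
  | mul s t ih1 ih2 =>
    intro w hw
    obtain ⟨w1, h1, w2, h2, rfl⟩ := mem_words_mul.1 hw
    simp [ih1 w1 h1]

theorem words_lt {N : ℕ} (t : Term) (ht : t.VarsLt N) : ∀ w ∈ words t, ∀ i ∈ w, i < N := by
  induction t with
  | var n =>
    intro w hw i hi
    simp [words] at hw
    subst hw
    simp at hi
    subst hi
    exact ht
  | add s t ih1 ih2 =>
    intro w hw
    rcases mem_words_add.1 hw with h | h
    · exact ih1 ht.1 w h
    · exact ih2 ht.2 w h
  | mul s t ih1 ih2 =>
    intro w hw i hi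
    obtain ⟨w1, h1, w2, h2, rfl⟩ := mem_words_mul.1 hw
    rcases List.mem_append.1 hi with h | h
    · exact ih1 ht.1 w1 h1 i h
    · exact ih2 ht.2 w2 h2 i h

/-! ## Evaluation in `B₂¹` -/

theorem valB_append (β : ℕ → B21) (w v : List ℕ) : valB β (w ++ v) = valB β w * valB β v := by
  rw [valB, List.map_append, prodB_append]
  rfl

theorem evalB_down (β : ℕ → B21) (t : Term) : ∀ i j : Bool, rel (t.eval β) i j = true →
    ∀ w ∈ words t, rel (valB β w) i j = true := by
  induction t with
  | var n =>
    intro i j h w hw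
    simp only [words, List.mem_singleton] at hw
    subst hw
    have h' : rel (β n) i j = true := h
    simpa [valB, mul_one'] using h'
  | add s t ih1 ih2 =>
    intro i j h w hw
    obtain ⟨h1, h2⟩ := (rel_add _ _ _ _).1 h
    rcases mem_words_add.1 hw with h | h
    · exact ih1 i j h1 w h
    · exact ih2 i j h2 w h
  | mul s t ih1 ih2 =>
    intro i j h w hw
    obtain ⟨k, h1, h2⟩ := (rel_mul _ _ _ _).1 h
    obtain ⟨w1, hw1, w2, hw2, rfl⟩ := mem_words_mul.1 hw
    rw [valB_append, rel_mul]
    exact ⟨k, ih1 i k h1 w1 hw1, ih2 k j h2 w2 hw2⟩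

theorem evalB_up (β : ℕ → B21) (t : Term) : ∀ i j : Bool,
    (∀ w ∈ words t, rel (valB β w) i j = true) → rel (t.eval β) i j = true := by
  induction t with
  | var n =>
    intro i j h
    have := h [n] (by simp [words])
    show rel (β n) i j = true
    simpa [valB, mul_one'] using this
  | add s t ih1 ih2 =>
    intro i j h
    exact (rel_add _ _ _ _).2 ⟨ih1 i j fun w hw => h w (mem_words_add.2 (Or.inl hw)),
      ih2 i j fun w hw => h w (mem_words_add.2 (Or.inr hw))⟩
  | mul s t ih1 ih2 =>
    intro i j h
    obtain ⟨w0, hw0⟩ := exists_word s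
    obtain ⟨v0, hv0⟩ := exists_word t
    have key : ∀ w ∈ words s, ∀ v ∈ words t, ∃ k, rel (valB β w) i k = true ∧
        rel (valB β v) k j = true := by
      intro w hw v hv
      have := h (w ++ v) (mem_words_mul.2 ⟨w, hw, v, hv, rfl⟩)
      rwa [valB_append, rel_mul] at this
    obtain ⟨k, hk1, hk2⟩ := key w0 hw0 v0 hv0
    refine (rel_mul _ _ _ _).2 ⟨k, ih1 i k ?_, ih2 k j ?_⟩
    · intro w hw
      obtain ⟨k', h1, h2⟩ := key w hw v0 hv0
      rwa [rel_right _ _ _ _ hk2 h2]
    · intro v hv
      obtain ⟨k', h1, h2⟩ := key w0 hw0 v hv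
      rwa [rel_left _ _ _ _ hk1 h1]

/-! ## Evaluation in the semiring of factors -/

/-- The word which is the value of a variable (the empty word for zero). -/
def wd {Q : ℕ} (φ : ℕ → Sg Q) (i : ℕ) : List L :=
  match φ i with
  | some f => f.1
  | none => []

theorem wd_some {Q : ℕ} {φ : ℕ → Sg Q} {i : ℕ} {f : {f : List L // f ≠ [] ∧ Fac Q f}}
    (h : φ i = some f) : wd φ i = f.1 := by
  unfold wd
  rw [h]

theorem wd_none {Q : ℕ} {φ : ℕ → Sg Q} {i : ℕ} (h : φ i = none) : wd φ i = [] := by
  unfold wd
  rw [h]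

theorem evalS_down {Q : ℕ} (φ : ℕ → Sg Q) (t : Term) :
    ∀ f : {f : List L // f ≠ [] ∧ Fac Q f}, t.eval φ = some f →
      ∀ w ∈ words t, (∀ i ∈ w, φ i ≠ none) ∧ w.flatMap (wd φ) = f.1 := by
  induction t with
  | var n =>
    intro f hf w hw
    have hf' : φ n = some f := hf
    simp only [words, List.mem_singleton] at hw
    subst hw
    refine ⟨?_, ?_⟩
    · intro i hi
      simp only [List.mem_singleton] at hi
      subst hi
      rw [hf']
      exact Option.some_ne_none _
    · simp [wd_some hf']
  | add s t ih1 ih2 =>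
    intro f hf w hw
    have hf' : s.eval φ + t.eval φ = some f := hf
    obtain ⟨h1, h2⟩ := (Sg_add Q _ _ _ (Option.some_ne_none _)).1 hf'
    rcases mem_words_add.1 hw with h | h
    · exact ih1 f h1 w h
    · exact ih2 f h2 w h
  | mul s t ih1 ih2 =>
    intro f hf w hw
    have hf' : s.eval φ * t.eval φ = some f := hf
    obtain ⟨g, h, h1, h2, h3⟩ := (Sg_mul Q _ _ _).1 hf'
    obtain ⟨w1, hw1, w2, hw2, rfl⟩ := mem_words_mul.1 hw
    obtain ⟨h4, h5⟩ := ih1 g h1 w1 hw1
    obtain ⟨h6, h7⟩ := ih2 h h2 w2 hw2
    refine ⟨?_, ?_⟩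
    · intro i hi
      rcases List.mem_append.1 hi with h | h
      · exact h4 i h
      · exact h6 i h
    · rw [List.flatMap_append, h5, h7, h3]

theorem flatMap_ne_nil {Q : ℕ} (φ : ℕ → Sg Q) (w : List ℕ) (hw : w ≠ [])
    (h : ∀ i ∈ w, φ i ≠ none) : w.flatMap (wd φ) ≠ [] := by
  cases w with
  | nil => exact absurd rfl hw
  | cons i w =>
    rw [List.flatMap_cons]
    have h1 := h i (by simp)
    cases hφ : φ i with
    | none => exact absurd hφ h1
    | some f =>
      rw [wd_some hφ]
      simp [f.2.1]

theorem evalS_up {Q : ℕ} (φ : ℕ → Sg Q) (t : Term) :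
    ∀ f : {f : List L // f ≠ [] ∧ Fac Q f},
      (∀ w ∈ words t, (∀ i ∈ w, φ i ≠ none) ∧ w.flatMap (wd φ) = f.1) →
      t.eval φ = some f := by
  induction t with
  | var n =>
    intro f h
    obtain ⟨h1, h2⟩ := h [n] (by simp [words])
    have h3 := h1 n (by simp)
    show φ n = some f
    cases hφ : φ n with
    | none => exact absurd hφ h3
    | some g =>
      simp only [List.flatMap_cons, List.flatMap_nil, List.append_nil, wd_some hφ] at h2
      congr 1
      exact Subtype.ext h2
  | add s t ih1 ih2 =>
    intro f h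
    show s.eval φ + t.eval φ = some f
    exact (Sg_add Q _ _ _ (Option.some_ne_none _)).2
      ⟨ih1 f fun w hw => h w (mem_words_add.2 (Or.inl hw)),
      ih2 f fun w hw => h w (mem_words_add.2 (Or.inr hw))⟩
  | mul s t ih1 ih2 =>
    intro f h
    obtain ⟨w0, hw0⟩ := exists_word s
    obtain ⟨v0, hv0⟩ := exists_word t
    have key : ∀ w ∈ words s, ∀ v ∈ words t, (∀ i ∈ w, φ i ≠ none) ∧ (∀ i ∈ v, φ i ≠ none) ∧
        w.flatMap (wd φ) ++ v.flatMap (wd φ) = f.1 := by
      intro w hw v hv
      obtain ⟨h1, h2⟩ := h (w ++ v) (mem_words_mul.2 ⟨w, hw, v, hv, rfl⟩)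
      refine ⟨fun i hi => h1 i (List.mem_append_left _ hi),
        fun i hi => h1 i (List.mem_append_right _ hi), ?_⟩
      rw [← List.flatMap_append, h2]
    obtain ⟨k1, k2, k3⟩ := key w0 hw0 v0 hv0
    have hFf : Fac Q (w0.flatMap (wd φ) ++ v0.flatMap (wd φ)) := k3 ▸ f.2.2
    let g : {f : List L // f ≠ [] ∧ Fac Q f} :=
      ⟨w0.flatMap (wd φ), flatMap_ne_nil φ w0 (words_ne_nil s w0 hw0) k1, hFf.left⟩
    let g' : {f : List L // f ≠ [] ∧ Fac Q f} :=
      ⟨v0.flatMap (wd φ), flatMap_ne_nil φ v0 (words_ne_nil t v0 hv0) k2, hFf.right⟩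
    show s.eval φ * t.eval φ = some f
    refine (Sg_mul Q _ _ _).2 ⟨g, g', ih1 g ?_, ih2 g' ?_, k3.symm⟩
    · intro w hw
      obtain ⟨m1, m2, m3⟩ := key w hw v0 hv0
      refine ⟨m1, ?_⟩
      rw [← k3] at m3
      exact List.append_cancel_right m3
    · intro v hv
      obtain ⟨m1, m2, m3⟩ := key w0 hw0 v hv
      refine ⟨m2, ?_⟩
      rw [← k3] at m3
      exact List.append_cancel_left m3

/-! ## The identities of `B₂¹` in at most `N` variables hold in the semiring of factors -/

theorem holds_aux (N Q : ℕ) (hQ : Q = 3 * (2 * N + 3)) (s t : Term) (hs : s.VarsLt N)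
    (ht : t.VarsLt N) (h : Holds B21 s t) (φ : ℕ → Sg Q)
    (f : {f : List L // f ≠ [] ∧ Fac Q f}) (hf : s.eval φ = some f) : t.eval φ = some f := by
  have hB : ∀ (β : ℕ → B21) (i j : Bool), (∀ w ∈ words s, rel (valB β w) i j = true) →
      ∀ v ∈ words t, rel (valB β v) i j = true := by
    intro β i j hw
    have h1 := evalB_up β s i j hw
    rw [h β] at h1
    exact evalB_down β t i j h1
  have hsd := evalS_down φ s f hf
  -- the variables of `t` are not sent to zero
  have hcon : ∀ v ∈ words t, ∀ i ∈ v, φ i ≠ none := by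
    classical
    have hprod : ∀ w : List ℕ, (∀ i ∈ w, φ i ≠ none) →
        valB (fun i => if φ i = none then B21.zero else B21.one) w = B21.one := by
      intro w
      induction w with
      | nil => intro _; rfl
      | cons i w ih =>
        intro hw
        rw [valB, List.map_cons, prodB_cons, if_neg (hw i (by simp)), one_mul']
        exact ih fun k hk => hw k (List.mem_cons_of_mem _ hk)
    have hzero : ∀ w : List ℕ, (∃ i ∈ w, φ i = none) →
        valB (fun i => if φ i = none then B21.zero else B21.one) w = B21.zero := by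
      intro w
      induction w with
      | nil => rintro ⟨i, hi, _⟩; simp at hi
      | cons i w ih =>
        rintro ⟨k, hk, hk0⟩
        rw [valB, List.map_cons, prodB_cons]
        by_cases hi : φ i = none
        · rw [if_pos hi]
          generalize prodB _ = z
          revert z
          decide
        · have hk' : k ∈ w := by
            rcases List.mem_cons.1 hk with h | h
            · exact absurd (h ▸ hk0) hi
            · exact h
          rw [if_neg hi, one_mul']
          exact ih ⟨k, hk', hk0⟩
    intro v hv i hi h0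
    have h1 := hB (fun i => if φ i = none then B21.zero else B21.one) false false
      (fun w hw => by rw [hprod w (hsd w hw).1]; rfl) v hv
    rw [hzero v ⟨i, hi, h0⟩] at h1
    exact absurd h1 (by decide)
  -- the words of the variables
  let η : ℕ → List L := fun i => if i < N then wd φ i else []
  have hη : ∀ w : List ℕ, (∀ i ∈ w, i < N) → w.flatMap η = w.flatMap (wd φ) := by
    intro w
    induction w with
    | nil => intro _; rfl
    | cons i w ih =>
      intro hw
      rw [List.flatMap_cons, List.flatMap_cons, ih fun k hk => hw k (List.mem_cons_of_mem _ hk)]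
      simp only [η, if_pos (hw i (by simp))]
  obtain ⟨p, q, hpq, hfpq⟩ := f.2.2
  apply evalS_up
  intro v hv
  refine ⟨hcon v hv, ?_⟩
  rw [← hη v (words_lt t ht v hv), hfpq]
  apply star N Q hQ (q - p) η p q v hpq (by omega)
  · intro c
    by_cases hc : c < N
    · simp only [η, if_pos hc]
      cases hφ : φ c with
      | none =>
        rw [wd_none hφ]
        exact ⟨0, 0, le_rfl, by rw [seg_self]⟩
      | some g =>
        rw [wd_some hφ]
        exact g.2.2
    · simp only [η, if_neg hc]
      exact ⟨0, 0, le_rfl, by rw [seg_self]⟩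
  · intro c hc
    simp only [η, if_neg (not_lt.2 hc)]
  · intro β _ i j hw
    refine hB β i j ?_ v hv
    intro w hws
    apply hw
    rw [hη w (words_lt s hs w hws), (hsd w hws).2, hfpq]

theorem holds_Sg (N Q : ℕ) (hQ : Q = 3 * (2 * N + 3)) (s t : Term) (hs : s.VarsLt N)
    (ht : t.VarsLt N) (h : Holds B21 s t) : Holds (Sg Q) s t := by
  intro φ
  cases h1 : s.eval φ with
  | some f => rw [holds_aux N Q hQ s t hs ht h φ f h1]
  | none =>
    cases h2 : t.eval φ with
    | none => rfl
    | some f =>
      have h3 := holds_aux N Q hQ t s ht hs (fun β => (h β).symm) φ f h2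
      rw [h1] at h3
      exact absurd (show (none : Option _) = some f from h3) (by simp)

/-! ## Finitely generated and infinite -/

theorem finGen_Sg {Q : ℕ} (hQ : 2 ≤ Q) : FinGen (Sg Q) := by
  classical
  let F : Set L := {x | x.1 < Q ∧ x.2.1 < Q ∧ x.2.2 < Q}
  have hF : F.Finite := by
    have : F ⊆ (Set.Iio Q) ×ˢ ((Set.Iio Q) ×ˢ (Set.Iio Q)) := by
      intro x hx
      exact ⟨hx.1, hx.2.1, hx.2.2⟩
    exact ((Set.finite_Iio Q).prod ((Set.finite_Iio Q).prod (Set.finite_Iio Q))).subset this
  have hUF : ∀ s, U Q s ∈ F := fun s => ⟨Nat.mod_lt _ (by omega), X_lt hQ s 1, X_lt hQ s 2⟩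
  let gen : L → Sg Q := fun x => if h : Fac Q [x] then some ⟨[x], by simp, h⟩ else none
  refine ⟨insert none (gen '' F), (hF.image gen).insert _, ?_⟩
  intro T hT hcl
  have hnone : (none : Sg Q) ∈ T := hT (Set.mem_insert _ _)
  have hfac : ∀ s, Fac Q [U Q s] := fun s => ⟨s, s + 1, Nat.le_succ s, by
    rw [seg_cons Q (Nat.lt_succ_self s), seg_self]⟩
  have hgen : ∀ s, (some ⟨[U Q s], by simp, hfac s⟩ : Sg Q) ∈ T := by
    intro s
    apply hT
    refine Set.mem_insert_of_mem _ ⟨U Q s, hUF s, ?_⟩
    exact dif_pos (hfac s)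
  have hseg : ∀ (k a : ℕ) (h : seg Q a (a + (k + 1)) ≠ [] ∧ Fac Q (seg Q a (a + (k + 1)))),
      (some ⟨seg Q a (a + (k + 1)), h⟩ : Sg Q) ∈ T := by
    intro k
    induction k with
    | zero =>
      intro a h
      have e : seg Q a (a + (0 + 1)) = [U Q a] := by
        rw [seg_cons Q (by omega), show a + (0 + 1) = a + 1 by ring, seg_self]
      have h3 : (⟨seg Q a (a + (0 + 1)), h⟩ : {f : List L // f ≠ [] ∧ Fac Q f}) =
          ⟨[U Q a], by simp, hfac a⟩ := Subtype.ext e
      rw [h3]
      exact hgen a
    | succ k ih =>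
      intro a h
      have hF' : Fac Q (seg Q a (a + (k + 1))) := ⟨_, _, Nat.le_add_right _ _, rfl⟩
      have hne : seg Q a (a + (k + 1)) ≠ [] := by
        intro h0
        have := seg_eq_nil Q h0
        omega
      have h1 := ih a ⟨hne, hF'⟩
      have h2 := (hcl _ h1 _ (hgen (a + (k + 1)))).2
      have h3 : (show Sg Q from some ⟨seg Q a (a + (k + 1)), hne, hF'⟩) *
          (show Sg Q from some ⟨[U Q (a + (k + 1))], by simp, hfac _⟩) =
          some ⟨seg Q a (a + (k + 1 + 1)), h⟩ := by
        apply (Sg_mul Q _ _ _).2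
        refine ⟨_, _, rfl, rfl, ?_⟩
        exact seg_succ Q (Nat.le_add_right a (k + 1))
      have h4 : (some ⟨seg Q a (a + (k + 1 + 1)), h⟩ : Sg Q) ∈ T := h3 ▸ h2
      exact h4
  ext x
  refine ⟨fun _ => trivial, fun _ => ?_⟩
  cases x with
  | none => exact hnone
  | some f =>
    obtain ⟨a, b, hab, hf⟩ := f.2.2
    have hlt : a < b := by
      rcases Nat.eq_or_lt_of_le hab with h | h
      · exact absurd (by rw [hf, h, seg_self]) f.2.1
      · exact h
    obtain ⟨k, hk⟩ := Nat.exists_eq_add_of_lt hlt
    have hb : b = a + (k + 1) := by omega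
    subst hb
    have h1 : seg Q a (a + (k + 1)) ≠ [] ∧ Fac Q (seg Q a (a + (k + 1))) := by
      rw [← hf]; exact f.2
    have h2 := hseg k a h1
    have h3 : f = ⟨seg Q a (a + (k + 1)), h1⟩ := Subtype.ext hf
    rw [h3]
    exact h2

theorem infinite_Sg (Q : ℕ) : Infinite (Sg Q) := by
  have hne : ∀ k, seg Q 0 (k + 1) ≠ [] := by
    intro k h0
    have := seg_eq_nil Q h0
    omega
  refine Infinite.of_injective (fun k : ℕ => (some ⟨seg Q 0 (k + 1), hne k,
    ⟨_, _, Nat.zero_le _, rfl⟩⟩ : Sg Q)) ?_
  intro k l h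
  have h1 := Option.some.inj h
  have h2 := congrArg (fun f => List.length f.1) h1
  simp at h2
  exact h2

end Pool.Agent.Helper73K9.Infb
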