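import Pool.Agent.Helper73K9.Infb.Rigid

/-! # The main induction: words in at most `N` letters -/

namespace Pool.Agent.Helper73K9.Infb

/-- The value of a word in the letters `0, 1, 2, …` under an assignment in `B₂¹`. -/
def valB (β : ℕ → B21) (w : List ℕ) : B21 := prodB (w.map β)

theorem valB_comp (γ : L → B21) (η : ℕ → List L) (w : List ℕ) :
    valB (fun c => prodB ((η c).map γ)) w = prodB ((w.flatMap η).map γ) := by
  induction w with
  | nil => rfl
  | cons c w ih =>
    rw [valB, List.map_cons, prodB_cons, List.flatMap_cons, List.map_append, prodB_append, ← ih]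
    rfl

theorem flat_flatMap {ρ : ℕ} {η η' : ℕ → List L} (h : ∀ c, flat (η' c) = D ρ (η c))
    (w : List ℕ) : flat (w.flatMap η') = D ρ (w.flatMap η) := by
  induction w with
  | nil => rfl
  | cons c w ih => rw [List.flatMap_cons, List.flatMap_cons, flat_append, D_append, ih, h]

/-- A window which is not hit. -/
theorem exists_window (N Q : ℕ) (hQ : Q = 3 * (2 * N + 3)) (A B : ℕ → ℕ) (p q : ℕ) :
    ∃ ρ, ρ % 3 = 0 ∧ ρ + 3 ≤ Q ∧ (∀ c < N, (A c % Q ≤ ρ ∨ ρ + 3 ≤ A c % Q) ∧
      (B c % Q ≤ ρ ∨ ρ + 3 ≤ B c % Q)) ∧ (p % Q ≤ ρ ∨ ρ + 3 ≤ p % Q) ∧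
      (q % Q ≤ ρ ∨ ρ + 3 ≤ q % Q) := by
  classical
  let S : Finset ℕ := ((Finset.range N).image fun c => A c % Q / 3) ∪
    ((Finset.range N).image fun c => B c % Q / 3) ∪ {p % Q / 3, q % Q / 3}
  have hS : S.card ≤ 2 * N + 2 := by
    have h1 : ((Finset.range N).image fun c => A c % Q / 3).card ≤ N := by
      simpa using Finset.card_image_le (s := Finset.range N) (f := fun c => A c % Q / 3)
    have h2 : ((Finset.range N).image fun c => B c % Q / 3).card ≤ N := by
      simpa using Finset.card_image_le (s := Finset.range N) (f := fun c => B c % Q / 3)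
    have h3 : ({p % Q / 3, q % Q / 3} : Finset ℕ).card ≤ 2 := Finset.card_le_two
    have h4 := Finset.card_union_le (((Finset.range N).image fun c => A c % Q / 3) ∪
      ((Finset.range N).image fun c => B c % Q / 3)) {p % Q / 3, q % Q / 3}
    have h5 := Finset.card_union_le ((Finset.range N).image fun c => A c % Q / 3)
      ((Finset.range N).image fun c => B c % Q / 3)
    have h6 : S.card ≤ (((Finset.range N).image fun c => A c % Q / 3) ∪
      ((Finset.range N).image fun c => B c % Q / 3)).card +
      ({p % Q / 3, q % Q / 3} : Finset ℕ).card := h4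
    omega
  obtain ⟨i, hi, hiS⟩ := Finset.exists_mem_notMem_of_card_lt_card
    (s := S) (t := Finset.range (2 * N + 3)) (by rw [Finset.card_range]; omega)
  rw [Finset.mem_range] at hi
  have key : ∀ r : ℕ, r / 3 ≠ i → (r ≤ 3 * i ∨ 3 * i + 3 ≤ r) := by
    intro r hr
    omega
  refine ⟨3 * i, by omega, by omega, ?_, ?_, ?_⟩
  · intro c hc
    refine ⟨key _ ?_, key _ ?_⟩
    · intro h
      apply hiS
      simp only [S, Finset.mem_union, Finset.mem_image, Finset.mem_range]
      exact Or.inl (Or.inl ⟨c, hc, h⟩)
    · intro h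
      apply hiS
      simp only [S, Finset.mem_union, Finset.mem_image, Finset.mem_range]
      exact Or.inl (Or.inr ⟨c, hc, h⟩)
  · refine key _ ?_
    intro h
    apply hiS
    simp only [S, Finset.mem_union, Finset.mem_insert, Finset.mem_singleton]
    exact Or.inr (Or.inl h.symm)
  · refine key _ ?_
    intro h
    apply hiS
    simp only [S, Finset.mem_union, Finset.mem_insert, Finset.mem_singleton]
    exact Or.inr (Or.inr h.symm)

/-- **Main induction.** If every assignment in `B₂¹` which has a nonzero entry on all
factorisations of a factor of the word has the same nonzero entry on `v`, then `v` is a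
factorisation of that factor. -/
theorem star (N Q : ℕ) (hQ : Q = 3 * (2 * N + 3)) : ∀ (len : ℕ) (η : ℕ → List L) (p q : ℕ)
    (v : List ℕ), p ≤ q → q ≤ p + len → (∀ c, ∃ a b, a ≤ b ∧ η c = seg Q a b) →
    (∀ c, N ≤ c → η c = []) →
    (∀ β : ℕ → B21, (∀ c, η c = [] → β c = .one) → ∀ i j : Bool,
      (∀ w : List ℕ, w.flatMap η = seg Q p q → rel (valB β w) i j = true) →
      rel (valB β v) i j = true) →
    v.flatMap η = seg Q p q := by
  intro len
  induction len with
  | zero =>
    intro η p q v hpq hlen hη hN H
    have hpq' : q = p := by omega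
    subst hpq'
    rw [seg_self] at H ⊢
    by_contra hne
    have h := H (fun c => prodB ((η c).map fun _ => B21.ab)) (fun c hc => by rw [hc]; rfl)
      true true (fun w hw => by rw [valB_comp, hw]; rfl)
    rw [valB_comp] at h
    obtain ⟨x, l, hxl⟩ : ∃ x l, v.flatMap η = x :: l := by
      cases hv : v.flatMap η with
      | nil => exact absurd hv hne
      | cons x l => exact ⟨x, l, rfl⟩
    rw [hxl, List.map_cons, prodB_cons] at h
    revert h
    generalize prodB (List.map (fun _ => B21.ab) l) = z
    revert z
    decide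
  | succ len ih =>
    intro η p q v hpq hlen hη hN H
    have hQ2 : 2 ≤ Q := by omega
    choose A B hAB hηAB using hη
    obtain ⟨ρ, hρ, hρQ, hc, hp, hq⟩ := exists_window N Q hQ A B p q
    -- the desubstituted words
    let η' : ℕ → List L := fun c => seg Q (yy Q ρ (A c)) (yy Q ρ (B c))
    have hflat : ∀ c, flat (η' c) = D ρ (η c) := by
      intro c
      rcases Nat.lt_or_ge c N with hcN | hcN
      · rw [hηAB c, D_seg hQ2 hρ hρQ (hAB c) (hc c hcN).1 (hc c hcN).2]
      · have h0 := hN c hcN
        have h1 : B c ≤ A c := seg_eq_nil Q (by rw [← hηAB c]; exact h0)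
        have h2 : A c = B c := le_antisymm (hAB c) h1
        rw [h0]
        simp only [η', h2, seg_self]
        rfl
    have hDpq := D_seg hQ2 hρ hρQ hpq hp hq
    have hlen' : yy Q ρ q ≤ yy Q ρ p + len := by
      have h1 := congrArg List.length hDpq
      rw [flat_length, seg_length] at h1
      have h2 := D_length_le ρ (seg Q p q)
      rw [seg_length] at h2
      have h3 := yy_mono (Q := Q) (ρ := ρ) hpq
      omega
    have hv : v.flatMap η' = seg Q (yy Q ρ p) (yy Q ρ q) := by
      apply ih η' (yy Q ρ p) (yy Q ρ q) v (yy_mono hpq) hlen'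
      · intro c
        exact ⟨_, _, yy_mono (hAB c), rfl⟩
      · intro c hcN
        apply flat_inj
        rw [hflat, hN c hcN]
        rfl
      · intro β hβ i j hw
        refine H β ?_ i j ?_
        · intro c hc0
          apply hβ
          apply flat_inj
          rw [hflat, hc0]
          rfl
        · intro w hw'
          apply hw
          apply flat_inj
          rw [flat_flatMap hflat, hw', hDpq]
    apply rigid hQ2 hρ hρQ hpq
    · intro γ i j hij
      have h := H (fun c => prodB ((η c).map γ)) (fun c hc0 => by rw [hc0]; rfl) i j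
        (fun w hw => by rw [valB_comp, hw]; exact hij)
      rwa [valB_comp] at h
    · rw [← flat_flatMap hflat, hv, hDpq]

end Pool.Agent.Helper73K9.Infb
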